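import Pool.Agent.Q210.SC.Core
import Pool.Agent.Q210.SP.Par

set_option autoImplicit false

/-! # The action of the flows -/

namespace Pool.Agent.Q210.SC

open Finset Pool.Agent.TH658.Dg Pool.Agent.H521R3.BI Pool.Agent.Q210.SM Pool.Agent.Q210.SP

variable {m p : ℕ}

/-- The action of a flow on the core. -/
def cact (M : ME m → ZMod 2) : Cx m → Cx m
  | Cx.fb v S => Cx.fb v (fun j => S j + M (mport m v j))
  | Cx.ou e c => Cx.ou e (c + M e)
  | Cx.nn e c => Cx.nn e (c + M e)
  | Cx.hb h => Cx.hb h

theorem cact_zero (u : Cx m) : cact 0 u = u := by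
  cases u with
  | fb v S =>
    show Cx.fb v (fun j => S j + 0) = _
    simp only [add_zero]
  | ou e c =>
    show Cx.ou e (c + 0) = _
    rw [add_zero]
  | nn e c =>
    show Cx.nn e (c + 0) = _
    rw [add_zero]
  | hb h => rfl

theorem cact_add (M M' : ME m → ZMod 2) (u : Cx m) : cact (M + M') u = cact M (cact M' u) := by
  cases u with
  | fb v S =>
    show Cx.fb v (fun j => S j + (M (mport m v j) + M' (mport m v j))) =
      Cx.fb v (fun j => S j + M' (mport m v j) + M (mport m v j))
    congr 1
    funext j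
    ring
  | ou e c =>
    show Cx.ou e (c + (M e + M' e)) = Cx.ou e (c + M' e + M e)
    congr 1
    ring
  | nn e c =>
    show Cx.nn e (c + (M e + M' e)) = Cx.nn e (c + M' e + M e)
    congr 1
    ring
  | hb h => rfl

/-- The action as a permutation. -/
def cactE (M : ME m → ZMod 2) : Cx m ≃ Cx m where
  toFun := cact M
  invFun := cact (-M)
  left_inv u := by rw [← cact_add, neg_add_cancel, cact_zero]
  right_inv u := by rw [← cact_add, add_neg_cancel, cact_zero]

theorem lab_cact (M : ME m → ZMod 2) (u : Cx m) : lab m p (cactE M u) = lab m p u := by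
  cases u <;> rfl

/-- The action on the vertices of the graph. -/
def vact (M : ME m → ZMod 2) : PV (lab m p) ≃ PV (lab m p) := pact (cactE M) (lab_cact M)

theorem vact_inl (M : ME m → ZMod 2) (u : Cx m) :
    (vact M (Sum.inl u) : PV (lab m p)) = Sum.inl (cact M u) := rfl

theorem vact_zero (u : PV (lab m p)) : vact 0 u = u := by
  rcases u with u | ⟨⟨u, i⟩, h⟩
  · rw [vact_inl, cact_zero]
  · show Sum.inr (⟨(cact 0 u, i), _⟩ : {z : Cx m × ℕ // z.2 < lab m p z.1}) = _
    congr 1
    apply Subtype.ext
    show (cact 0 u, i) = (u, i)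
    rw [cact_zero]

theorem vact_add (M M' : ME m → ZMod 2) (u : PV (lab m p)) :
    vact (M + M') u = vact M (vact M' u) := by
  rcases u with u | ⟨⟨u, i⟩, h⟩
  · rw [vact_inl, vact_inl, vact_inl, cact_add]
  · show Sum.inr (⟨(cact (M + M') u, i), _⟩ : {z : Cx m × ℕ // z.2 < lab m p z.1}) =
      Sum.inr (⟨(cact M (cact M' u), i), _⟩ : {z : Cx m × ℕ // z.2 < lab m p z.1})
    congr 1
    apply Subtype.ext
    show (cact (M + M') u, i) = (cact M (cact M' u), i)
    rw [cact_add]

theorem crel_cact [NeZero m] {x x' : MQ m → ZMod 2} {M : ME m → ZMod 2} (u w : Cx m)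
    (h : ∀ v S, u = Cx.fb v S → bd (msrc m) (mtgt m) M v = x' v - x v) :
    crel x u w ↔ crel x' (cact M u) (cact M w) := by
  cases u with
  | fb v S =>
    cases w with
    | fb v' S' => exact Iff.rfl
    | ou e c =>
      show (∃ k, e = mport m v (Sum.inr k) ∧ c = S (Sum.inr k)) ↔
        ∃ k, e = mport m v (Sum.inr k) ∧ c + M e = S (Sum.inr k) + M (mport m v (Sum.inr k))
      refine exists_congr fun k => and_congr_right fun hk => ?_
      rw [← hk, add_left_inj]
    | nn e c =>
      show (∃ k, e = mport m v (Sum.inl k) ∧ c = S (Sum.inl k)) ↔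
        ∃ k, e = mport m v (Sum.inl k) ∧ c + M e = S (Sum.inl k) + M (mport m v (Sum.inl k))
      refine exists_congr fun k => and_congr_right fun hk => ?_
      rw [← hk, add_left_inj]
    | hb g =>
      have h1 := h v S rfl
      have h2 : ∑ j, (S j + M (mport m v j)) + x' v = ∑ j, S j + x v := by
        rw [Finset.sum_add_distrib, port_sum, h1]
        have e1 := CharTwo.add_self_eq_zero (x' v)
        have e2 := CharTwo.add_self_eq_zero (x v)
        linear_combination e1 - e2
      show hadj v (∑ j, S j + x v) g ↔ hadj v (∑ j, (S j + M (mport m v j)) + x' v) g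
      rw [h2]
  | ou e c =>
    cases w with
    | fb v' S' => exact Iff.rfl
    | ou e' c' => exact Iff.rfl
    | nn e' c' =>
      show (e = e' ∧ c = c') ↔ (e = e' ∧ c + M e = c' + M e')
      refine and_congr_right fun he => ?_
      rw [he, add_left_inj]
    | hb g => exact Iff.rfl
  | nn e c =>
    cases w with
    | fb v' S' => exact Iff.rfl
    | ou e' c' => exact Iff.rfl
    | nn e' c' => exact Iff.rfl
    | hb g => exact Iff.rfl
  | hb g =>
    cases w with
    | fb v' S' => exact Iff.rfl
    | ou e' c' => exact Iff.rfl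
    | nn e' c' => exact Iff.rfl
    | hb g => exact Iff.rfl

/-- The graph with the bits `x`. -/
def gr (m p : ℕ) (x : MQ m → ZMod 2) : SimpleGraph (PV (lab m p)) := PG (core x) (lab m p)

theorem gr_vact [NeZero m] {x x' : MQ m → ZMod 2} {M : ME m → ZMod 2} (u w : PV (lab m p))
    (h : ∀ v S, u = Sum.inl (Cx.fb v S) ∨ w = Sum.inl (Cx.fb v S) →
      bd (msrc m) (mtgt m) M v = x' v - x v) :
    (gr m p x).Adj u w ↔ (gr m p x').Adj (vact M u) (vact M w) := by
  rcases u with u | z
  · rcases w with w | z'
    · show (crel x u w ∨ crel x w u) ↔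
        (crel x' (cact M u) (cact M w) ∨ crel x' (cact M w) (cact M u))
      rw [crel_cact (M := M) u w fun v S hu => h v S (Or.inl (by rw [hu])),
        crel_cact (M := M) w u fun v S hu => h v S (Or.inr (by rw [hu]))]
    · show u = z'.1.1 ↔ cactE M u = cactE M z'.1.1
      exact (cactE M).injective.eq_iff.symm
  · rcases w with w | z'
    · show w = z.1.1 ↔ cactE M w = cactE M z.1.1
      exact (cactE M).injective.eq_iff.symm
    · exact Iff.rfl

/-- Graphs whose bits have the same sum are isomorphic. -/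
theorem gr_iso [NeZero m] (x x' : MQ m → ZMod 2) (hx : ∑ v, x v = ∑ v, x' v) :
    Nonempty (gr m p x ≃g gr m p x') := by
  obtain ⟨M, hM⟩ := bd_surj (x' - x) (by
    simp only [Pi.sub_apply]
    rw [Finset.sum_sub_distrib, hx, sub_self])
  exact ⟨⟨vact M, fun {u w} => (gr_vact u w fun v S _ => hM v).symm⟩⟩

/-- Graphs whose bits have different sums are not isomorphic. -/
theorem gr_not_iso [NeZero m] (x x' : MQ m → ZMod 2) (hx : ∑ v, x v ≠ ∑ v, x' v) :
    ¬ Nonempty (gr m p x ≃g gr m p x') := by
  rintro ⟨ψ⟩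
  obtain ⟨φ, h1, h2, h3⟩ := exists_core (two_core x) (two_core x') ψ
  exact hx (sum_eq_of_iso x x' φ h1 h2 h3)

/-- Flipping a bit changes only the edges between the fibre of the node and the hub. -/
theorem gr_flip [NeZero m] (v : MQ m) (x : MQ m → ZMod 2) (u w : PV (lab m p))
    (h1 : ∀ S, u = Sum.inl (Cx.fb v S) → w ≠ Sum.inl (Cx.hb none))
    (h2 : ∀ S, w = Sum.inl (Cx.fb v S) → u ≠ Sum.inl (Cx.hb none)) :
    (gr m p (x + Pi.single v 1)).Adj u w ↔ (gr m p x).Adj u w := by
  classical
  have key : ∀ u w : Cx m, (∀ S, u = Cx.fb v S → w ≠ Cx.hb none) →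
      (crel (x + Pi.single v 1) u w ↔ crel x u w) := by
    intro u w hu
    cases u with
    | fb v' S' =>
      cases w with
      | fb v'' S'' => exact Iff.rfl
      | ou e c => exact Iff.rfl
      | nn e c => exact Iff.rfl
      | hb g =>
        rcases g with _ | ⟨t, a⟩
        · have hne : v' ≠ v := fun h => hu S' (by rw [h]) rfl
          show (∑ j, S' j + (x + Pi.single v 1 : MQ m → ZMod 2) v' = 1) ↔
            (∑ j, S' j + x v' = 1)
          rw [Pi.add_apply, Pi.single_eq_of_ne hne, add_zero]
        · exact Iff.rfl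
    | ou e c =>
      cases w with
      | fb v'' S'' => exact Iff.rfl
      | ou e c => exact Iff.rfl
      | nn e c => exact Iff.rfl
      | hb g => exact Iff.rfl
    | nn e c =>
      cases w with
      | fb v'' S'' => exact Iff.rfl
      | ou e c => exact Iff.rfl
      | nn e c => exact Iff.rfl
      | hb g => exact Iff.rfl
    | hb g =>
      cases w with
      | fb v'' S'' => exact Iff.rfl
      | ou e c => exact Iff.rfl
      | nn e c => exact Iff.rfl
      | hb g => exact Iff.rfl
  rcases u with u | z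
  · rcases w with w | z'
    · show (crel (x + Pi.single v 1) u w ∨ crel (x + Pi.single v 1) w u) ↔
        (crel x u w ∨ crel x w u)
      rw [key u w fun S hu hw => h1 S (by rw [hu]) (by rw [hw]),
        key w u fun S hw hu => h2 S (by rw [hw]) (by rw [hu])]
    · exact Iff.rfl
  · rcases w with w | z'
    · exact Iff.rfl
    · exact Iff.rfl

/-! ## Copies of a graph -/

/-- `f` is an injective homomorphism. -/
def Emb {W V : Type} (F : SimpleGraph W) (G : SimpleGraph V) (f : W → V) : Prop :=
  Function.Injective f ∧ ∀ a b, F.Adj a b → G.Adj (f a) (f b)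

/-- Copies are injective homomorphisms. -/
def copyEquiv {W V : Type} (F : SimpleGraph W) (G : SimpleGraph V) :
    SimpleGraph.Copy F G ≃ {f : W → V // Emb F G f} where
  toFun c := ⟨c, c.injective, fun _ _ h => c.toHom.map_adj h⟩
  invFun f := ⟨⟨f.1, fun {_ _} h => f.2.2 _ _ h⟩, f.2.1⟩
  left_inv _ := rfl
  right_inv _ := rfl

theorem emb_iso {W V V' : Type} (F : SimpleGraph W) {G : SimpleGraph V} {H : SimpleGraph V'}
    (φ : G ≃g H) : Nat.card {f : W → V // Emb F G f} = Nat.card {f : W → V' // Emb F H f} := by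
  refine Nat.card_congr ((Equiv.arrowCongr (Equiv.refl W) φ.toEquiv).subtypeEquiv fun f => ?_)
  constructor
  · rintro ⟨h1, h2⟩
    exact ⟨φ.injective.comp h1, fun a b h => φ.map_adj_iff.2 (h2 a b h)⟩
  · rintro ⟨h1, h2⟩
    refine ⟨fun a b h => h1 (congrArg φ h), fun a b h => φ.map_adj_iff.1 (h2 a b h)⟩

/-- Counting lemma: if for each object some bit is irrelevant, then the numbers of objects of the
two halves of the family agree. -/
theorem card_par {Q Ω : Type} [Fintype Q] [DecidableEq Q] [Finite Ω]
    (P : (Q → ZMod 2) → Ω → Prop)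
    (hiso : ∀ x x' : Q → ZMod 2, ∑ v, x v = ∑ v, x' v →
      Nat.card {f // P x f} = Nat.card {f // P x' f})
    (hsw : ∀ f : Ω, ∃ v, ∀ x, P (x + Pi.single v 1) f ↔ P x f)
    (x0 x1 : Q → ZMod 2) (h0 : ∑ v, x0 v = 0) (h1 : ∑ v, x1 v = 1) :
    Nat.card {f // P x0 f} = Nat.card {f // P x1 f} := by
  classical
  have := Fintype.ofFinite Ω
  have hcard : ∀ x, Nat.card {f // P x f} = ∑ f : Ω, if P x f then 1 else 0 := by
    intro x
    rw [Nat.card_eq_fintype_card, Fintype.card_subtype, Finset.card_filter]
  have hsum : ∀ (x : Q → ZMod 2) (v : Q),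
      ∑ u, (x + Pi.single v 1 : Q → ZMod 2) u = ∑ u, x u + 1 := by
    intro x v
    simp only [Pi.add_apply]
    rw [Finset.sum_add_distrib, Finset.sum_pi_single']
    simp
  have h11 : (1 : ZMod 2) + 1 = 0 := by decide
  have hinv : ∀ (x : Q → ZMod 2) (v : Q), x + Pi.single v 1 + Pi.single v 1 = x := by
    intro x v
    rw [add_assoc, ← Pi.single_add, h11, Pi.single_zero, add_zero]
  have hkey : ∀ (F : (Q → ZMod 2) → ℕ) (v : Q), (∀ x, F (x + Pi.single v 1) = F x) →
      ∑ x ∈ univ.filter (fun x : Q → ZMod 2 => ∑ u, x u = 0), F x =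
        ∑ x ∈ univ.filter (fun x : Q → ZMod 2 => ∑ u, x u = 1), F x := by
    intro F v hF
    refine Finset.sum_nbij' (fun x => x + Pi.single v 1) (fun x => x + Pi.single v 1)
      ?_ ?_ ?_ ?_ ?_
    · intro x hx
      rw [Finset.mem_filter] at hx ⊢
      refine ⟨Finset.mem_univ _, ?_⟩
      rw [hsum, hx.2, zero_add]
    · intro x hx
      rw [Finset.mem_filter] at hx ⊢
      refine ⟨Finset.mem_univ _, ?_⟩
      rw [hsum, hx.2, h11]
    · intro x _
      exact hinv x v
    · intro x _
      exact hinv x v
    · intro x _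
      exact (hF x).symm
  have hL : ∑ x ∈ univ.filter (fun x : Q → ZMod 2 => ∑ u, x u = 0), Nat.card {f // P x f} =
      ∑ x ∈ univ.filter (fun x : Q → ZMod 2 => ∑ u, x u = 1), Nat.card {f // P x f} := by
    simp only [hcard]
    rw [Finset.sum_comm, Finset.sum_comm (s := univ.filter (fun x : Q → ZMod 2 => ∑ u, x u = 1))]
    refine Finset.sum_congr rfl fun f _ => ?_
    obtain ⟨v, hv⟩ := hsw f
    refine hkey (fun x => if P x f then 1 else 0) v ?_
    intro x
    simp only [hv]
  have hA : ∑ x ∈ univ.filter (fun x : Q → ZMod 2 => ∑ u, x u = 0), Nat.card {f // P x f} =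
      (univ.filter (fun x : Q → ZMod 2 => ∑ u, x u = 0)).card * Nat.card {f // P x0 f} := by
    rw [Finset.sum_congr rfl (g := fun _ => Nat.card {f // P x0 f}), Finset.sum_const,
      smul_eq_mul]
    intro x hx
    exact hiso x x0 ((Finset.mem_filter.1 hx).2.trans h0.symm)
  have hB : ∑ x ∈ univ.filter (fun x : Q → ZMod 2 => ∑ u, x u = 1), Nat.card {f // P x f} =
      (univ.filter (fun x : Q → ZMod 2 => ∑ u, x u = 1)).card * Nat.card {f // P x1 f} := by
    rw [Finset.sum_congr rfl (g := fun _ => Nat.card {f // P x1 f}), Finset.sum_const,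
      smul_eq_mul]
    intro x hx
    exact hiso x x1 ((Finset.mem_filter.1 hx).2.trans h1.symm)
  have hq : Nonempty Q := by
    by_contra hq
    rw [not_nonempty_iff] at hq
    rw [Finset.univ_eq_empty, Finset.sum_empty] at h1
    exact absurd h1 (by decide)
  obtain ⟨v⟩ := hq
  have hC := hkey (fun _ => 1) v fun _ => rfl
  rw [Finset.sum_const, Finset.sum_const, smul_eq_mul, smul_eq_mul, mul_one, mul_one] at hC
  rw [hA, hB, hC] at hL
  have hpos : 0 < (univ.filter (fun x : Q → ZMod 2 => ∑ u, x u = 1)).card :=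
    Finset.card_pos.2 ⟨x1, Finset.mem_filter.2 ⟨Finset.mem_univ _, h1⟩⟩
  exact Nat.eq_of_mul_eq_mul_left hpos hL

/-- The numbers of copies of a graph with maximum degree less than the number of nodes agree. -/
theorem card_emb [NeZero m] {W : Type} [Fintype W] (F : SimpleGraph W) [DecidableRel F.Adj]
    (hF : ∀ w, F.degree w < m ^ 2) (x0 x1 : MQ m → ZMod 2) (h0 : ∑ v, x0 v = 0)
    (h1 : ∑ v, x1 v = 1) :
    Nat.card {f : W → PV (lab m p) // Emb F (gr m p x0) f} =
      Nat.card {f : W → PV (lab m p) // Emb F (gr m p x1) f} := by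
  classical
  refine card_par (fun x f => Emb F (gr m p x) f) ?_ ?_ x0 x1 h0 h1
  · intro x x' hx
    obtain ⟨φ⟩ := gr_iso (p := p) x x' hx
    exact emb_iso F φ
  · intro f
    by_cases hf : Function.Injective f
    · have hfree : ∃ v : MQ m, ∀ a b, F.Adj a b → ∀ S, f a = Sum.inl (Cx.fb v S) →
          f b ≠ Sum.inl (Cx.hb none) := by
        by_contra hcon
        push Not at hcon
        choose a b hab S ha hb using hcon
        have hb0 : ∀ v, b v = b 0 := fun v => hf ((hb v).trans (hb 0).symm)
        have hinj : Function.Injective a := by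
          intro v v' h
          have h2 : f (a v) = f (a v') := by rw [h]
          rw [ha, ha] at h2
          have h3 := Sum.inl_injective h2
          injection h3
        have h4 : (univ.image a).card ≤ (F.neighborFinset (b 0)).card := by
          refine Finset.card_le_card ?_
          intro w hw
          obtain ⟨v, _, rfl⟩ := Finset.mem_image.1 hw
          rw [SimpleGraph.mem_neighborFinset]
          have h5 := hab v
          rw [hb0] at h5
          exact h5.symm
        rw [Finset.card_image_of_injective _ hinj, Finset.card_univ, Fintype.card_prod,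
          ZMod.card, SimpleGraph.card_neighborFinset_eq_degree] at h4
        have h5 := hF (b 0)
        rw [pow_two] at h5
        omega
      obtain ⟨v, hv⟩ := hfree
      refine ⟨v, fun x => ?_⟩
      have key : ∀ a b, F.Adj a b → ((gr m p (x + Pi.single v 1)).Adj (f a) (f b) ↔
          (gr m p x).Adj (f a) (f b)) := fun a b h =>
        gr_flip v x (f a) (f b) (fun S hS => hv a b h S hS) (fun S hS => hv b a h.symm S hS)
      constructor
      · rintro ⟨h2, h3⟩
        exact ⟨h2, fun a b h => (key a b h).1 (h3 a b h)⟩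
      · rintro ⟨h2, h3⟩
        exact ⟨h2, fun a b h => (key a b h).2 (h3 a b h)⟩
    · exact ⟨0, fun x => ⟨fun h => absurd h.1 hf, fun h => absurd h.1 hf⟩⟩

end Pool.Agent.Q210.SC
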