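import Pool.Agent.Q210.SC.Act

set_option autoImplicit false

/-! # Labelled and unlabelled copies -/

namespace Pool.Agent.Q210.SC

open Finset SimpleGraph

variable {V W : Type} {G : SimpleGraph V} {F : SimpleGraph W}

theorem sub_adj (c : Copy F G) (a b : W) : c.toSubgraph.Adj (c a) (c b) ↔ F.Adj a b := by
  show Relation.Map (⊤ : F.Subgraph).Adj c.toHom c.toHom (c a) (c b) ↔ _
  constructor
  · rintro ⟨a', b', h, ha, hb⟩
    have e1 : a' = a := c.injective ha
    have e2 : b' = b := c.injective hb
    subst e1 e2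
    exact h
  · intro h
    exact ⟨a, b, h, rfl, rfl⟩

theorem mem_verts (c : Copy F G) (v : V) : v ∈ c.toSubgraph.verts ↔ ∃ a, c a = v := by
  show v ∈ c.toHom '' (⊤ : F.Subgraph).verts ↔ _
  constructor
  · rintro ⟨a, _, h⟩
    exact ⟨a, h⟩
  · rintro ⟨a, h⟩
    exact ⟨a, trivial, h⟩

/-- The composition of a copy with an automorphism. -/
def compAut (c : Copy F G) (α : F ≃g F) : Copy F G :=
  ⟨c.toHom.comp α.toHom, c.injective.comp α.injective⟩

theorem compAut_apply (c : Copy F G) (α : F ≃g F) (a : W) : compAut c α a = c (α a) := rfl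

theorem compAut_sub (c : Copy F G) (α : F ≃g F) : (compAut c α).toSubgraph = c.toSubgraph := by
  apply Subgraph.ext
  · ext v
    rw [mem_verts, mem_verts]
    constructor
    · rintro ⟨a, h⟩
      exact ⟨α a, h⟩
    · rintro ⟨a, h⟩
      refine ⟨α.symm a, ?_⟩
      rw [compAut_apply, α.apply_symm_apply]
      exact h
  · ext u v
    constructor
    · intro h
      have hu := (mem_verts _ _).1 h.fst_mem
      have hv := (mem_verts _ _).1 h.snd_mem
      obtain ⟨a, rfl⟩ := hu
      obtain ⟨b, rfl⟩ := hv
      rw [sub_adj] at h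
      rw [compAut_apply, compAut_apply, sub_adj, α.map_adj_iff]
      exact h
    · intro h
      have hu := (mem_verts _ _).1 h.fst_mem
      have hv := (mem_verts _ _).1 h.snd_mem
      obtain ⟨a, rfl⟩ := hu
      obtain ⟨b, rfl⟩ := hv
      rw [sub_adj] at h
      have h1 := sub_adj (compAut c α) (α.symm a) (α.symm b)
      rw [compAut_apply, compAut_apply, α.apply_symm_apply, α.apply_symm_apply] at h1
      rw [h1]
      exact α.symm.map_adj_iff.2 h

theorem exists_aut (c c' : Copy F G) (h : c'.toSubgraph = c.toSubgraph) :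
    ∃ α : F ≃g F, compAut c α = c' := by
  have h1 : ∀ a, ∃ b, c b = c' a := by
    intro a
    rw [← mem_verts, ← h, mem_verts]
    exact ⟨a, rfl⟩
  have h2 : ∀ a, ∃ b, c' b = c a := by
    intro a
    rw [← mem_verts, h, mem_verts]
    exact ⟨a, rfl⟩
  choose f hf using h1
  choose g hg using h2
  refine ⟨⟨⟨f, g, ?_, ?_⟩, ?_⟩, ?_⟩
  · intro a
    apply c'.injective
    show c' (g (f a)) = c' a
    rw [hg, hf]
  · intro a
    apply c.injective
    show c (f (g a)) = c a
    rw [hf, hg]
  · intro a b
    show F.Adj (f a) (f b) ↔ F.Adj a b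
    rw [← sub_adj c, ← sub_adj c', hf, hf, h]
  · apply DFunLike.ext
    intro a
    exact hf a

theorem labelled_eq [Fintype V] [Fintype W] (G : SimpleGraph V) (F : SimpleGraph W) :
    G.labelledCopyCount F = G.copyCount F * Nat.card (F ≃g F) := by
  classical
  rw [labelledCopyCount, copyCount_eq_card_image_copyToSubgraph, ← Finset.card_univ,
    Finset.card_eq_sum_card_image (Copy.toSubgraph (A := F) (B := G)), Finset.sum_const_nat]
  intro G' hG'
  obtain ⟨c, _, rfl⟩ := Finset.mem_image.1 hG'
  rw [← Fintype.card_subtype, ← Nat.card_eq_fintype_card]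
  refine (Nat.card_congr (Equiv.ofBijective
    (fun α : F ≃g F => (⟨compAut c α, compAut_sub c α⟩ :
      {c' : Copy F G // c'.toSubgraph = c.toSubgraph})) ⟨?_, ?_⟩)).symm
  · intro α β h
    have h1 : compAut c α = compAut c β := congrArg Subtype.val h
    apply DFunLike.ext
    intro a
    apply c.injective
    have h2 := congrArg (fun c : Copy F G => c a) h1
    exact h2
  · rintro ⟨c', hc'⟩
    obtain ⟨α, hα⟩ := exists_aut c c' hc'
    exact ⟨α, Subtype.ext hα⟩

/-- Equal numbers of injective homomorphisms give equal numbers of copies. -/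
theorem copies_eq {V' : Type} [Fintype V] [Fintype V'] [Fintype W] (G : SimpleGraph V)
    (H : SimpleGraph V') (F : SimpleGraph W)
    (h : Nat.card {f : W → V // Emb F G f} = Nat.card {f : W → V' // Emb F H f}) :
    G.copyCount F = H.copyCount F ∧ G.labelledCopyCount F = H.labelledCopyCount F := by
  classical
  have h1 : G.labelledCopyCount F = Nat.card {f : W → V // Emb F G f} := by
    rw [labelledCopyCount, ← Nat.card_eq_fintype_card]
    exact Nat.card_congr (copyEquiv F G)
  have h2 : H.labelledCopyCount F = Nat.card {f : W → V' // Emb F H f} := by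
    rw [labelledCopyCount, ← Nat.card_eq_fintype_card]
    exact Nat.card_congr (copyEquiv F H)
  have h3 : G.labelledCopyCount F = H.labelledCopyCount F := by rw [h1, h2, h]
  refine ⟨?_, h3⟩
  rw [labelled_eq, labelled_eq] at h3
  have h4 : 0 < Nat.card (F ≃g F) := by
    have : Finite (F ≃g F) := Finite.of_injective (fun α : F ≃g F => (α : W → W))
      DFunLike.coe_injective
    exact Nat.card_pos_iff.2 ⟨⟨SimpleGraph.Iso.refl⟩, this⟩
  exact Nat.eq_of_mul_eq_mul_right h4 h3

end Pool.Agent.Q210.SC
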