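import Pool.Agent.Q290.SC.Stm

set_option autoImplicit false

namespace Pool.Agent.Q210.SC

open Pool.Agent.Q290.SC Pool.Agent.H29R2.MG

theorem rb : S_RB := by
  intro g q S k i hk hi hik w hw hq hco
  have hki : k ≠ i := hik.symm
  obtain ⟨u, v, huv⟩ := hco
  have h1 : q ∣ w (Sum.inl k) - 1 := by
    have := hq (Sum.inl k)
    simpa [ve] using this
  have h2 : q ∣ w (Sum.inl i) := by
    have := hq (Sum.inl i)
    simpa [ve, hik] using this
  obtain ⟨m, hm⟩ : q ∣ 1 - w (Sum.inl k) - w (Sum.inl i) := by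
    have e : 1 - w (Sum.inl k) - w (Sum.inl i) = -(w (Sum.inl k) - 1) - w (Sum.inl i) := by ring
    rw [e]
    exact dvd_sub ((dvd_neg).2 h1) h2
  have ho : om (ve i : VV g) (vf k) = 0 := by
    rw [om_ve]; simp [vf, hik]
  refine ⟨T (ve i) (q * (m * v)) * E (ve i) (vf k) (q * (-(m * u))),
    mul_mem (T_mem (sup_ve hi) (Dvd.intro _ rfl))
      (E_mem (sup_ve hi) (sup_vf hk) (Dvd.intro _ rfl)), ?_⟩
  rw [ac_mul, ac_E ho, ac_T]
  simp only [om_add_right, om_smul_right, om_ve, om_vf]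
  simp only [ve, vf, Pi.add_apply, Pi.smul_apply, smul_eq_mul, Pi.single_apply,
    Sum.inl.injEq, Sum.inr.injEq, reduceCtorEq, if_false, if_true, hik, hki]
  linear_combination (-1 : ℤ) * hm + (q * m) * huv

end Pool.Agent.Q210.SC
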