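import Pool.Agent.Q290.SC.Stm

set_option autoImplicit false

namespace Pool.Agent.Q210.SC

open Pool.Agent.Q290.SC Pool.Agent.H29R2.MG

theorem rc : S_RC := by
  intro g q S k i hk hi hik w hw hq hwi
  have hki : k ≠ i := hik.symm
  have hb : q ∣ w (Sum.inr k) := by
    have := hq (Sum.inr k)
    simpa [ve] using this
  have hP0 : om (ve k : VV g) (vf i) = 0 := by
    rw [om_ve]; simp [vf, hki]
  set P : SpG g := E (ve k) (vf i) (-1) with hP
  have hPm : P ∈ KS 1 S := E_mem (sup_ve hk) (sup_vf hi) (one_dvd _)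
  have hPF : Fx S P := KS_Fx hPm
  set w₁ : VV g := ac P w with hw1
  have e1 : ∀ j, w₁ j = w j + (-1) * (w (Sum.inr k) * (vf i : VV g) j +
      (-w (Sum.inl i)) * (ve k : VV g) j) := by
    intro j
    rw [hw1, hP, ac_E hP0, om_ve, om_vf]
    simp only [Pi.add_apply, Pi.smul_apply, smul_eq_mul]
  have hk1 : w₁ (Sum.inl k) = 1 := by
    rw [e1]
    simp [ve, vf, hwi]
  have hk2 : w₁ (Sum.inr k) = w (Sum.inr k) := by
    rw [e1]
    simp [ve, vf, hki]
  have hq1 : ∀ j, q ∣ w₁ j - (ve k : VV g) j := by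
    intro j
    rw [e1]
    have h1 : q ∣ w (Sum.inl i) := by
      have := hq (Sum.inl i)
      simpa [ve, hik] using this
    have e : w j + (-1) * (w (Sum.inr k) * (vf i : VV g) j + (-w (Sum.inl i)) * (ve k : VV g) j) -
        (ve k : VV g) j = (w j - (ve k : VV g) j) + (w (Sum.inr k) * (-(vf i : VV g) j) +
          w (Sum.inl i) * (ve k : VV g) j) := by ring
    rw [e]
    exact dvd_add (hq j) (dvd_add (hb.mul_right _) (h1.mul_right _))
  have hs1 : Sup S w₁ := Sup.act hPF hw
  -- the rest of the vector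
  set x : VV g := fun j => if j = Sum.inl k ∨ j = Sum.inr k then 0 else w₁ j / q with hx
  have hxk : x (Sum.inl k) = 0 := by simp [hx]
  have hxk' : x (Sum.inr k) = 0 := by simp [hx]
  have hxs : Sup S x := by
    intro j hj
    constructor
    · show (if Sum.inl j = Sum.inl k ∨ Sum.inl j = Sum.inr k then 0 else w₁ (Sum.inl j) / q) = 0
      rw [(hs1 j hj).1, Int.zero_ediv, ite_self]
    · show (if Sum.inr j = Sum.inl k ∨ Sum.inr j = Sum.inr k then 0 else w₁ (Sum.inr j) / q) = 0
      rw [(hs1 j hj).2, Int.zero_ediv, ite_self]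
  have hdec : w₁ = ve k + w (Sum.inr k) • vf k + q • x := by
    funext j
    simp only [Pi.add_apply, Pi.smul_apply, smul_eq_mul]
    by_cases h1 : j = Sum.inl k
    · subst h1
      rw [hk1, hxk]
      simp [ve, vf]
    · by_cases h2 : j = Sum.inr k
      · subst h2
        rw [hk2, hxk']
        simp [ve, vf]
      · have h3 : (ve k : VV g) j = 0 := by simp [ve, h1]
        have h4 : (vf k : VV g) j = 0 := by simp [vf, h2]
        have h5 : x j = w₁ j / q := by simp [hx, h1, h2]
        have h6 := hq1 j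
        rw [h3, sub_zero] at h6
        rw [h3, h4, h5, Int.mul_ediv_cancel' h6]
        ring
  have hox : om (vf k : VV g) x = 0 := by rw [om_vf, hxk, neg_zero]
  have hxw : om x w₁ = 0 := by
    rw [hdec, om_add_right, om_add_right, om_smul_right, om_smul_right, om_self, om_ve', om_vf',
      hxk, hxk']
    ring
  have hX1 : ac (E (vf k) x q) w₁ = ve k + w (Sum.inr k) • vf k := by
    rw [ac_E hox, om_vf, hk1, hxw]
    funext j
    have := congrFun hdec j
    simp only [Pi.add_apply, Pi.smul_apply, smul_eq_mul] at this ⊢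
    rw [this]
    ring
  have hX2 : ac (T (vf k) (w (Sum.inr k))) (ve k + w (Sum.inr k) • vf k) = ve k := by
    rw [ac_T, om_add_right, om_smul_right, om_self, om_vf]
    have h1 : (ve k : VV g) (Sum.inl k) = 1 := by simp [ve]
    rw [h1]
    funext j
    simp only [Pi.add_apply, Pi.smul_apply, smul_eq_mul]
    ring
  have hPe : ac P (ve k) = ve k := by
    rw [hP, ac_E hP0, om_self, om_vf]
    have h1 : (ve k : VV g) (Sum.inl i) = 0 := by simp [ve, hik]
    rw [h1]
    simp
  have hPe' : ac P⁻¹ (ve k) = ve k := by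
    have := ac_self_inv P (ve k)
    rwa [hPe] at this
  have hmem : T (vf k) (w (Sum.inr k)) * E (vf k) x q ∈ KS q S :=
    mul_mem (T_mem (sup_vf hk) hb) (E_mem (sup_vf hk) hxs dvd_rfl)
  refine ⟨P⁻¹ * (T (vf k) (w (Sum.inr k)) * E (vf k) x q) * (P⁻¹)⁻¹,
    KS_conj hPF.inv hmem, ?_⟩
  rw [inv_inv, ac_mul, ac_mul, ac_mul]
  rw [← hw1, hX1, hX2, hPe']

end Pool.Agent.Q210.SC
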